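import Pool.Agent.MP_da1f04_co.I91.Chain
import Pool.Agent.MP_da1f04_co.I91.DerFine
import Pool.Agent.MP_da1f04_co.I91.Ht
import Pool.Agent.MP_da1f04_co.I91.Xa
import Pool.Agent.MP_da1f04_co.I91.Xb
import Pool.Agent.MP_da1f04_co.R91.Col
import Pool.Agent.MP_da1f04_co.R91.Cross
import Pool.Agent.MP_da1f04_co.R91.Fam
import Pool.Agent.MP_da1f04_co.R91.Glue
import Pool.Agent.MP_da1f04_co.R91.OffP
import Pool.Agent.MP_da1f04_co.R91.One
import Pool.Agent.MP_da1f04_co.R91.Ops
import Pool.Agent.MP_da1f04_co.R91.TinyP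
import Pool.Agent.MP_da1f04_co.R91.Union

set_option autoImplicit false

namespace Pool.Agent.Results.MP_da1f04_co.Controlled

open Pool.Agent.MP_da1f04_co Pool.Agent.MP_da1f04_co.I91 Pool.Agent.MP_da1f04_co.R91

/-- In the closure of a `χ`-bounded class under substitution and gluing along at most `k`
vertices, large chromatic number is forced only by large cliques or by induced triangle-free
members of the closure of the graphs with at most two vertices. -/
theorem result (k : ℕ) : ∃ k' : ℕ, ∀ C : GClass, ChiBounded C → ∀ q N : ℕ, ∃ n : ℕ,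
    ∀ (U W : Type) (J : SimpleGraph U) (H : SimpleGraph W), Cl C k W H → Nonempty (J ↪g H) →
      J.CliqueFree q → ¬ J.Colorable n → ∃ (Y : Type) (F : SimpleGraph Y),
        Cl Tiny k' Y F ∧ F.CliqueFree 3 ∧ ¬ F.Colorable N ∧ Nonempty (F ↪g J) :=
  R91.final derFine ht (redSt xaSt xbSt)
    (one (rnd (eStep (br fam) (R91.union sel cross)) (col chainSt) off)) (tinyP ops) k

end Pool.Agent.Results.MP_da1f04_co.Controlled
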