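import Pool.Agent.MP_da1f04_co.F91Main

set_option autoImplicit false

namespace Pool.Agent.Results.MP_da1f04_co.Fractional

open Pool.Agent.MP_da1f04_co

/-- Every finite graph `D` is the target of a homomorphism from a triangle-free graph `G` in the
closure of the graphs on at most two vertices under substitution and gluing along at most two
vertices whose independence ratio exceeds that of `D` by at most `ε`. -/
theorem result (A : Type) [Finite A] [Nonempty A] (D : SimpleGraph A) (ε : ℝ) (hε : 0 < ε) :
    ∃ (V : Type) (G : SimpleGraph V), Cl Tiny 2 V G ∧ Finite V ∧ Nonempty V ∧ G.CliqueFree 3 ∧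
      Nonempty (G →g D) ∧
      (G.indepNum : ℝ) / Nat.card V ≤ (D.indepNum : ℝ) / Nat.card A + ε := by
  obtain ⟨V, G, h1, h2, h3, h4, h5⟩ := F91.fractional D hε
  exact ⟨V, G, h1, h1.finite, h2, h3, h4, h5⟩

end Pool.Agent.Results.MP_da1f04_co.Fractional
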