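import Pool.Agent.MP_da1f04_co.I91.Asm
import Pool.Agent.MP_da1f04_co.I91.Chain
import Pool.Agent.MP_da1f04_co.I91.Claim
import Pool.Agent.MP_da1f04_co.I91.DerFine
import Pool.Agent.MP_da1f04_co.I91.ElStep
import Pool.Agent.MP_da1f04_co.I91.ElTop
import Pool.Agent.MP_da1f04_co.I91.Es
import Pool.Agent.MP_da1f04_co.I91.Final
import Pool.Agent.MP_da1f04_co.I91.GlCl
import Pool.Agent.MP_da1f04_co.I91.GlFar
import Pool.Agent.MP_da1f04_co.I91.Greedy
import Pool.Agent.MP_da1f04_co.I91.Ht
import Pool.Agent.MP_da1f04_co.I91.Lay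
import Pool.Agent.MP_da1f04_co.I91.Pools
import Pool.Agent.MP_da1f04_co.I91.Root
import Pool.Agent.MP_da1f04_co.I91.Scheme
import Pool.Agent.MP_da1f04_co.I91.Step
import Pool.Agent.MP_da1f04_co.I91.Un
import Pool.Agent.MP_da1f04_co.I91.Xa
import Pool.Agent.MP_da1f04_co.I91.Xb

set_option autoImplicit false

namespace Pool.Agent.Results.MP_da1f04_co.Induced

open Pool.Agent.MP_da1f04_co Pool.Agent.MP_da1f04_co.I91

/-- The finite families of forbidden induced subgraphs for which substitution and gluing along at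
most `k` vertices preserve `χ`-boundedness are those with a laminar member. -/
theorem result (k : ℕ) (hk : 2 ≤ k) (ι : Type) [Finite ι] (n : ι → ℕ)
    (F : ∀ i, SimpleGraph (Fin (n i))) :
    (∀ C : GClass, ChiBounded C → ChiBounded fun _ G =>
      (∃ (W : Type) (H : SimpleGraph W), Cl C k W H ∧ Nonempty (G ↪g H)) ∧
        ∀ i, IsEmpty (F i ↪g G)) ↔ ∃ i, Laminar (F i) :=
  final derFine ht (redSt xaSt xbSt)
    (modelSt root scheme (poolSt es) (lay greedy) (asm ram) ambSt (claimSt (stepSt chainSt unSt)))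
    (neg (elTop glCl glLoc glFar glDist) elStep) k hk ι n F

end Pool.Agent.Results.MP_da1f04_co.Induced
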