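import Pool.Agent.MP_da1f04_co.S91.Sharp

set_option autoImplicit false

namespace Pool.Agent.Results.MP_da1f04_co.Sharp

open Pool.Agent.MP_da1f04_co

/-- In the closure of a `χ`-bounded class that contains the graphs with at most two vertices,
under substitution and gluing along at most `k ≥ 2` vertices, the largest chromatic number of an
induced subgraph without a clique of size `m + 2` and with at most `2 ^ 2 ^ s` vertices has the
order `s ^ m / (log s) ^ (m - 1)`. -/
theorem result (C : GClass) (hC : ChiBounded C)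
    (hT : ∀ (V : Type) (G : SimpleGraph V), Finite V → Nat.card V ≤ 2 → C V G) (k m : ℕ)
    (hk : 2 ≤ k) (hm : 1 ≤ m) :
    ∃ c : ℝ, 0 < c ∧ ∀ s : ℕ, 2 ≤ s →
      (∀ (U W : Type) (J : SimpleGraph U) (H : SimpleGraph W), Cl C k W H → Nonempty (J ↪g H) →
        J.CliqueFree (m + 2) → Nat.card U ≤ 2 ^ (2 ^ s) →
          J.Colorable ⌊c * ((s : ℝ) ^ m / Real.log s ^ (m - 1))⌋₊) ∧
      ∃ (W : Type) (H : SimpleGraph W), Cl C k W H ∧ H.CliqueFree (m + 2) ∧
        Nat.card W ≤ 2 ^ (2 ^ s) ∧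
          ∀ n : ℕ, H.Colorable n → (s : ℝ) ^ m / Real.log s ^ (m - 1) ≤ c * n :=
  S91.sharp C hC hT k m hk hm

end Pool.Agent.Results.MP_da1f04_co.Sharp
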